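import Pool.Agent.H83.V.FV

/-!
# lvv VER and LBV: errors on the multiples of a prime; the label of a component
-/

set_option autoImplicit false

open MeasureTheory Filter Topology Finset

namespace Pool.Agent.H14.V

open Pool.Agent.H28.LF (LX Xi LY Yi shX shY lX lY btY flY xiY CompY)
open Pool.Agent.H83.V

theorem meas_xiY (p : ℕ) : Measurable (xiY p) := by
  unfold xiY
  exact (measurable_pi_apply p).comp (measurable_snd.comp (measurable_snd.comp
    (measurable_pi_apply (0 : ℤ))))

theorem meas_flY (p : ℕ) : MeasurableSet (flY p) := by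
  unfold flY
  have h : Measurable fun ω : Yi => (ω 0).2.1 p :=
    (measurable_pi_apply p).comp (measurable_fst.comp (measurable_snd.comp
      (measurable_pi_apply (0 : ℤ))))
  exact h (measurableSet_singleton true)

theorem pf_LBV : T_LBV := by
  intro ν hν p hp
  have := hν.prob
  have hg : Measurable fun ω : Yi => (xiY p ω 0).2 :=
    measurable_snd.comp ((measurable_pi_apply (0 : ℤ)).comp (meas_xiY p))
  have hinv : (fun ω : Yi => (xiY p ω 0).2) ∘ shY =ᵐ[ν] fun ω : Yi => (xiY p ω 0).2 := by
    filter_upwards [hν.lab p hp, hν.stp p hp] with ω h1 h2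
    show (xiY p (shY ω) 0).2 = (xiY p ω 0).2
    rcases h2 with h2 | h2
    · rw [h2]
    · rw [h2, h1]
      show (xiY p ω (0 + 1)).2 = _
      rw [zero_add]
  obtain ⟨c, hc⟩ := hν.erg.ae_eq_const_of_ae_eq_comp_ae hg.aestronglyMeasurable hinv
  exact ⟨c, hc⟩

theorem meas_eX (hG : T_GDL) (z : Bool) {m : ℕ} (I : Finset (Fin m)) : Measurable (eX z I) := by
  classical
  let Φ : Xi → (Fin m → Bool × Bool) × (Fin (3 ^ m) → Bool) :=
    fun ξ => (fun i => (ξ ((i : ℤ) + 1)).1, fun s => (ξ 0).2 s)
  have hΦ : Measurable Φ := by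
    refine Measurable.prodMk ?_ ?_
    · exact measurable_pi_lambda _ fun i => measurable_fst.comp (measurable_pi_apply _)
    · exact measurable_pi_lambda _ fun s => (measurable_pi_apply (s : ℕ)).comp
        (measurable_snd.comp (measurable_pi_apply (0 : ℤ)))
  let g : (Fin m → Bool × Bool) × (Fin (3 ^ m) → Bool) → ℝ := fun c =>
    if (fun i : Fin m => vl z (c.1 i)) ∈ Gd I (fun s => if h : s < 3 ^ m then c.2 ⟨s, h⟩ else false)
      then 0 else 1
  have hg : Measurable g := measurable_of_finite g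
  have e : eX z I = g ∘ Φ := by
    funext ξ
    have h : Gd I (ξ 0).2 = Gd I (fun s => if h : s < 3 ^ m then (Φ ξ).2 ⟨s, h⟩ else false) := by
      refine (hG m I).2.2.2 _ _ fun s hs => ?_
      simp only [dif_pos hs]
      rfl
    show eX z I ξ = g (Φ ξ)
    unfold eX
    rw [h]
  rw [e]
  exact hg.comp hΦ

theorem pf_VER (hD : Pool.Agent.H28.LF.T_DVS) (hT : Pool.Agent.H28.LF.T_TPL) (hG : T_GDL) :
    T_VER := by
  intro z m I η F ν hν hF hmain p hp hpF
  have := hν.prob
  have hx := meas_xiY p
  have hfl := meas_flY p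
  have hp0 : (0 : ℝ) < p := by exact_mod_cast hp.pos
  have hden : ν.real (flY p) = 1 / p := (hD ν hν).1 p hp.pos
  obtain ⟨ν', hν'⟩ : ∃ ν' : Measure Xi,
    ν' = ENNReal.ofReal p • (ν.restrict (flY p)).map (xiY p) := ⟨_, rfl⟩
  have hval : ∀ B : Set Xi, MeasurableSet B → ν'.real B = p * ν.real (flY p ∩ xiY p ⁻¹' B) := by
    intro B hB
    rw [hν', Measure.real, Measure.smul_apply, Measure.map_apply hx hB,
      Measure.restrict_apply (hx hB), smul_eq_mul, ENNReal.toReal_mul,
      ENNReal.toReal_ofReal hp0.le, Set.inter_comm]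
    rfl
  have hfin : IsFiniteMeasure ν' := by
    refine ⟨?_⟩
    rw [hν', Measure.smul_apply, Measure.map_apply hx MeasurableSet.univ, smul_eq_mul]
    exact ENNReal.mul_lt_top ENNReal.ofReal_lt_top (measure_lt_top _ _)
  have hprob : IsProbabilityMeasure ν' := by
    refine ⟨?_⟩
    have h1 := hval Set.univ MeasurableSet.univ
    rw [Set.preimage_univ, Set.inter_univ, hden, mul_one_div_cancel hp0.ne'] at h1
    have h2 : (ν' Set.univ).toReal = 1 := h1
    rw [← ENNReal.ofReal_toReal (measure_ne_top ν' Set.univ), h2, ENNReal.ofReal_one]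
  have hpres : MeasurePreserving shX ν' ν' := by
    refine ⟨shX.measurable, Measure.ext fun B hB => ?_⟩
    rw [Measure.map_apply shX.measurable hB]
    have h1 := hval _ (shX.measurable hB)
    have h2 := hval B hB
    have h3 := hT ν p 1 B hν hp hB
    have h4 : ν'.real (shX ⁻¹' B) = ν'.real B := by
      rw [h1, h2, ← h3]
      rfl
    exact (measureReal_eq_measureReal_iff).1 h4
  have hone : ν'.real F = 1 := by
    rw [hval F hF]
    have h1 : ν.real (flY p ∩ xiY p ⁻¹' F) = ν.real (flY p) := by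
      have h2 : ν (xiY p ⁻¹' F)ᶜ = 0 := by
        rw [prob_compl_eq_zero_iff (hx hF)]
        have h3 : (ν (xiY p ⁻¹' F)).toReal = 1 := hpF
        rw [← ENNReal.ofReal_toReal (measure_ne_top ν (xiY p ⁻¹' F)), h3, ENNReal.ofReal_one]
      have h4 : (flY p ∩ xiY p ⁻¹' F : Set Yi) =ᵐ[ν] flY p := by
        have h5 : ∀ᵐ ω ∂ν, ω ∈ xiY p ⁻¹' F := by
          rw [ae_iff]
          exact h2
        filter_upwards [h5] with ω hω
        exact propext ⟨fun h => h.1, fun h => ⟨h, hω⟩⟩
      exact measureReal_congr h4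
    rw [h1, hden, mul_one_div_cancel hp0.ne']
  have hint := hmain ν' hprob hpres hone
  have he := meas_eX hG z I
  rw [hν', integral_smul_measure, integral_map hx.aemeasurable he.aestronglyMeasurable,
    ENNReal.toReal_ofReal hp0.le] at hint
  exact hint

end Pool.Agent.H14.V
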